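import Pool.Agent.Run7.h414.DP.Fam
import Pool.Agent.Run7.h414.DP.TL
import Pool.Agent.N625.PT.P

/-!
# Chowla's conjecture in progressions for arbitrary polynomials times a linear factor whose constant term is any multiple of
any integer near a random integer with determinantal digits

The digits of the random integer `v` are given by a determinantal random set `S` of positions (a determinantal point process
with an arbitrary Hermitian kernel): the digit number `i` is `y i` if `i ∈ S` and `x i ≠ y i` otherwise. Examples (their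
existence is not used and not formalised): the edges of a uniform spanning tree of a graph with `k` edges; stationary
determinantal processes with any symbol which is not almost everywhere `0` or almost everywhere `1` (for example the discrete
sine process with any density); independent digits; and all the events for such processes whose probability is at least
`1 / k ^ t`, for example a prescribed number of elements of `S`.

Definitions used (in `Pool.Agent.Run7.h414.DP.Law` and `Pool.Agent.Run7.h414.DP.Fam`): `DetLaw`, `GoodPos`, `DetDigits`.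

Method: the characteristic function is `det (1 + D A)`; the inequality `|det N|² ≤ exp (tr N* N - k)` for
`N = 1 + B D B*`, `A = B* B`, bounds it by `exp (- E)` with an energy `E` which is at least a constant times the number of
the good positions near the places where the frequency is far from the rational numbers with small denominators. So all the
multiples of the random integer have a thin large spectrum. The passage from this to
correlations is from the starting files (`Pool.Agent.N625.PT.t_poly`).

`∑ v ∈ range (b ^ k), (if P v then 0 else p v)` is the `p`-weight of the integers `v < b ^ k` without the property `P`.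
-/

set_option autoImplicit false

namespace Pool.Agent.Results.MP_d639b3_nt.DeterminantalConstants

open Finset
open Pool.Agent.Run7.h414.DP (DetDigits fam_dc dom_le dc_tcls)

/-- The Liouville function on the integers, `λ(-m) = λ(m)` and `λ(0) = 0`. -/
def lam (m : ℤ) : ℤ := if m = 0 then 0 else (-1) ^ ArithmeticFunction.cardFactors m.natAbs

/-- For all `l`, all residue classes `r` modulo `q ≤ k ^ T` and all integers `u`, `v` with `α l |u| ≤ B N` and
`α l |v| ≤ B N`: the sum of `λ(f l (n) (α l n + h))` over the integers `n` with `u ≤ n ≤ v` and `n ≡ r mod q` is at most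
`N / k ^ U` in absolute value. -/
def Small (B T U N k : ℕ) {M : ℕ} (f : Fin M → Polynomial ℤ) (α : Fin M → ℕ) (h : ℤ) : Prop :=
  ∀ l, ∀ q : ℕ, 1 ≤ q → q ≤ k ^ T → ∀ r u v : ℤ, (α l : ℤ) * |u| ≤ B * N → (α l : ℤ) * |v| ≤ B * N →
    |((∑ n ∈ (Icc u v).filter (fun n => n ≡ r [ZMOD q]), lam ((f l).eval n * (α l * n + h)) : ℤ) : ℝ)| ≤ N / (k : ℝ) ^ U

lemma small_of (B T U N k : ℕ) {M : ℕ} (f : Fin M → Polynomial ℤ) (α : Fin M → ℕ) (h : ℤ)
    (h1 : ∀ l, Pool.Agent.R501.CP.One B T U N k (f l) (α l) h) : Small B T U N k f α h := by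
  intro l q hq1 hq2 r u w hu hw
  have h3 := h1 l 0 univ ⟨0, mem_univ _⟩ q hq1 hq2 r u w fun i _ => ⟨hu, hw⟩
  refine le_trans (le_of_eq ?_) h3
  congr 2
  unfold Pool.Agent.R501.CP.lamSum
  apply sum_congr rfl
  intro n _
  change lam _ = lam _
  rw [Fin.prod_univ_one]
  simp only [Polynomial.eval_add, Polynomial.eval_mul, Polynomial.eval_C, Polynomial.eval_X]

lemma small_mono {B T U U' N k : ℕ} (hk : 1 ≤ k) (hU : U ≤ U') {M : ℕ} {f : Fin M → Polynomial ℤ} {α : Fin M → ℕ} {h : ℤ}
    (h1 : Small B T U' N k f α h) : Small B T U N k f α h := by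
  intro l q hq1 hq2 r u v hu hv
  refine (h1 l q hq1 hq2 r u v hu hv).trans ?_
  have hk1 : (1 : ℝ) ≤ k := by exact_mod_cast hk
  exact div_le_div_of_nonneg_left (Nat.cast_nonneg _) (by positivity) (pow_le_pow_right₀ hk1 hU)

open Classical in
/-- Let `b ≥ 2`, `L`, `η > 0`, `t`, `κ ≠ 0`, `B`, `B'`, `T`, `J`, `W` and `U` be fixed and let `k` be large. Let at most
`k ^ T` pairs of a polynomial `f l` with integer coefficients (of any degree) and of an integer `α l ≥ 1` be given, let
`p` be dominated, up to the factor `k ^ t`, by the distribution of an integer with `k` determinantal digits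
(`DetDigits b L η t k p`), and let `c` be any integer with `|c| ≤ B b ^ k`. Then the `p`-weight of the integers `v < b ^ k`
without the following property is at most `1 / k ^ U`: for ALL the integers `q` at a distance of at most `k ^ W` from
`c + κ v`, ALL the factors `1 ≤ h ≤ k ^ J` and all `l`, `|∑ λ(f l (n) (α l n + h q))| ≤ b ^ k / k ^ U`, where the sum is over
the `n ≡ r mod m` in an arbitrary interval `[u, w]` of integers with `α l |u|, α l |w| ≤ B' b ^ k`, for all residue classes
`r` modulo all `m ≤ k ^ T`. -/
theorem result (b L : ℕ) (hb : 2 ≤ b) (η : ℝ) (hη : 0 < η) (t : ℕ) (κ : ℤ) (hκ : κ ≠ 0)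
    (B B' T J W U : ℕ) :
    ∃ k₀ : ℕ, ∀ k : ℕ, k₀ ≤ k → ∀ p : ℕ → ℝ, DetDigits b L η t k p → ∀ c : ℤ, |c| ≤ B * (b : ℤ) ^ k →
      ∀ M : ℕ, M ≤ k ^ T → ∀ (f : Fin M → Polynomial ℤ) (α : Fin M → ℕ), (∀ l, 1 ≤ α l) →
        ∑ v ∈ range (b ^ k), (if ∀ q : ℤ, |q - (c + κ * v)| ≤ (k : ℤ) ^ W → ∀ h : ℕ, 1 ≤ h → h ≤ k ^ J →
          Small B' T U (b ^ k) k f α (h * q) then 0 else p v) ≤ 1 / (k : ℝ) ^ U := by
  obtain ⟨k₀, hmain⟩ := Pool.Agent.N625.PT.t_poly (dc_tcls b L hb η hη κ hκ) B B' T J W (U + t)
  refine ⟨k₀ + 1, fun k hk p hp c hc M hM f α hα => ?_⟩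
  obtain ⟨μ, hμ, hpμ⟩ := fam_dc hp
  refine dom_le (by omega) hpμ _ _ (fun v h2 => ?_) (hmain k (by omega) μ hμ c hc M hM f α hα)
  intro q hq h hh1 hh2
  exact small_mono (by omega) (by omega) (small_of B' T (U + t) (b ^ k) k f α (h * q) (h2 q hq h hh1 hh2))

end Pool.Agent.Results.MP_d639b3_nt.DeterminantalConstants
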