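import Pool.Agent.Run7.h582.FM.App1

/-!
# Chowla's conjecture in progressions for arbitrary polynomials times a linear factor whose constant term is any multiple of any integer near `lam n * x + c n`, for almost every `x` of all measures with Fourier decay

Let `N n ≥ exp (n ^ η)`, and let `lam n`, `c n` be real numbers with `N n / log ^ T (N n) ≤ lam n ≤ B N n` and
`|c n| ≤ B N n`. For every `n` let at most `log ^ T (N n)` pairs of a polynomial `f` with integer coefficients (of any
degree) and of an integer `a ≥ 1` be given. A real number `x` is called generic if for all `J`, `W`, `U` and all large `n` the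
sums of the Liouville function of `f(t) (a t + h q)` over the `t ≡ r mod m` of an arbitrary interval `[u, v]` of integers with
`a |u|, a |v| ≤ B N n` are at most `N n / log ^ U (N n)` for ALL the integers `q` at a distance of at most `log ^ W (N n)` from
`lam n * x + c n`, ALL the factors `1 ≤ h ≤ log ^ J (N n)`, all the pairs and all the residue classes `r` modulo all
`m ≤ log ^ T (N n)`.

Almost every `x` is generic with respect to EVERY finite Borel measure with bounded support whose Fourier transform is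
`O (|ξ| ^ (-δ))` for some `δ > 0`. Thus the set of the real numbers which are not generic has Fourier dimension zero.

The proof: the measure is replaced by finite families of real numbers with the same exponential sums
(`Pool.Agent.Run7.h582.FM`); the large spectrum of all the multiples of the members of such families is thin, and then the
theorem of helper625 (`Pool.Agent.N625.PT`) applies to almost all the members; the properties of the exponential sums of
finite families of real numbers are from helper844's files (`Pool.Agent.Run7.h844.RP`).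
-/

set_option autoImplicit false
set_option maxHeartbeats 4000000

namespace Pool.Agent.Results.MP_d639b3_nt.FourierDecayConstants

open Finset Filter MeasureTheory

/-- The Liouville function on the integers, `λ(-m) = λ(m)` and `λ(0) = 0`. -/
def liouville (m : ℤ) : ℤ := if m = 0 then 0 else (-1) ^ ArithmeticFunction.cardFactors m.natAbs

/-- `N n ≥ exp (n ^ η)`, `|c n| ≤ B N n` and `N n / log ^ T (N n) ≤ lam n ≤ B N n` for large `n`. -/
def Scales (η : ℝ) (B T : ℕ) (N : ℕ → ℕ) (lam c : ℕ → ℝ) : Prop :=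
  ∀ᶠ n : ℕ in atTop, Real.exp ((n : ℝ) ^ η) ≤ N n ∧ |c n| ≤ B * N n ∧ lam n ≤ B * N n ∧
    (N n : ℝ) ≤ lam n * Real.log (N n) ^ T

/-- For large `n`: there are `L n ≤ log ^ T (N n)` polynomials `f n l` and integers `a n l ≥ 1`. -/
def Systems (T : ℕ) (N L : ℕ → ℕ) (a : ∀ n : ℕ, Fin (L n) → ℕ) : Prop :=
  ∀ᶠ n : ℕ in atTop, (L n : ℝ) ≤ Real.log (N n) ^ T ∧ ∀ l, 1 ≤ a n l

/-- For all residue classes `r` modulo `m ≤ log ^ T N` and all integers `u`, `v` with `a |u| ≤ B N` and `a |v| ≤ B N`: the sum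
of `λ(f(t) (a t + h))` over the integers `t` with `u ≤ t ≤ v` and `t ≡ r mod m` is at most `N / log ^ U N` in absolute
value. -/
def Small (B T U N : ℕ) (f : Polynomial ℤ) (a : ℕ) (h : ℤ) : Prop :=
  ∀ m : ℕ, 1 ≤ m → (m : ℝ) ≤ Real.log N ^ T → ∀ r u v : ℤ, (a : ℤ) * |u| ≤ B * N → (a : ℤ) * |v| ≤ B * N →
    |((∑ t ∈ (Icc u v).filter (fun t => t ≡ r [ZMOD m]), liouville (f.eval t * (a * t + h)) : ℤ) : ℝ)| ≤
      N / Real.log N ^ U

/-- For all `J`, `W`, `U` and all large `n`, for all the integers `q` at a distance of at most `log ^ W (N n)` from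
`lam n * x + c n`, all `1 ≤ h ≤ log ^ J (N n)` and all `l`: `Small B T U (N n) (f n l) (a n l) (h q)`. -/
def Generic (B T : ℕ) (N L : ℕ → ℕ) (f : ∀ n : ℕ, Fin (L n) → Polynomial ℤ) (a : ∀ n : ℕ, Fin (L n) → ℕ)
    (lam c : ℕ → ℝ) (x : ℝ) : Prop :=
  ∀ J W U : ℕ, ∀ᶠ n : ℕ in atTop, ∀ q : ℤ, |(q : ℝ) - (lam n * x + c n)| ≤ Real.log (N n) ^ W →
    ∀ h : ℕ, 1 ≤ h → (h : ℝ) ≤ Real.log (N n) ^ J → ∀ l, Small B T U (N n) (f n l) (a n l) (h * q)

/-- `μ` is a finite Borel measure with bounded support and its Fourier transform `ξ ↦ ∫ exp (i ξ t) dμ (t)` is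
`O (|ξ| ^ (-δ))` for some `δ > 0`. -/
def FourierDecay (μ : Measure ℝ) : Prop :=
  IsFiniteMeasure μ ∧ (∃ R : ℝ, μ (Set.Icc (-R) R)ᶜ = 0) ∧ ∃ C δ : ℝ, 0 < δ ∧ ∀ ξ : ℝ, ξ ≠ 0 →
    ‖∫ t : ℝ, Complex.exp (((ξ * t : ℝ) : ℂ) * Complex.I) ∂μ‖ ≤ C * |ξ| ^ (-δ)

/-- Let `η > 0`, `B`, `T`, sequences `N`, `lam`, `c` with `Scales η B T N lam c`, arbitrary polynomials `f n l` with integer
coefficients and integers `a n l` with `Systems T N L a` be given. Then almost every real number `x` is generic with respect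
to every measure `μ` with `FourierDecay μ`: for all `J`, `W`, `U` and all large `n`, for ALL the integers `q` with
`|q - (lam n * x + c n)| ≤ log ^ W (N n)`, ALL the factors `1 ≤ h ≤ log ^ J (N n)` and all `l`,
`|∑ λ(f(t) (a t + h q))| ≤ N n / log ^ U (N n)` (`f = f n l`, `a = a n l`), where the sum is over the `t ≡ r mod m` in an
arbitrary interval `[u, v]` of integers with `a |u|, a |v| ≤ B N n`, for all residue classes `r` modulo all
`m ≤ log ^ T (N n)`. -/
theorem result (η : ℝ) (hη : 0 < η) (B T : ℕ) (N L : ℕ → ℕ) (lam c : ℕ → ℝ) (hS : Scales η B T N lam c)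
    (f : ∀ n : ℕ, Fin (L n) → Polynomial ℤ) (a : ∀ n : ℕ, Fin (L n) → ℕ) (hL : Systems T N L a)
    (μ : Measure ℝ) (hμ : FourierDecay μ) :
    ∀ᵐ x ∂μ, Generic B T N L f a lam c x := by
  have key : ∀ J W U : ℕ, ∀ᵐ x ∂μ, ∀ᶠ n : ℕ in atTop, ∀ q : ℤ, |(q : ℝ) - (lam n * x + c n)| ≤ Real.log (N n) ^ W →
    ∀ h : ℕ, 1 ≤ h → (h : ℝ) ≤ Real.log (N n) ^ J → ∀ l, Small B T U (N n) (f n l) (a n l) (h * q) := by
    intro J W U
    refine Pool.Agent.Run7.h582.FM.ae_rcx _ _
      (Pool.Agent.Run7.h582.FM.rcx_poly B T J (U + 3))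
      (fun n q => ∀ h : ℕ, 1 ≤ h → (h : ℝ) ≤ Real.log (N n) ^ J → ∀ l, Small B T U (N n) (f n l) (a n l) (h * q))
      (fun n => ⟨L n, f n, a n⟩) μ hμ η hη B T N lam c hS ?_ W
    filter_upwards [hL, (Pool.Agent.Run7.h582.FM.Sc.log hη hS).eventually_ge_atTop 1] with n hn hl1 k k1 k2 k3 k4
    obtain ⟨hn1, hn2⟩ := hn
    have hl0 : 0 < Real.log (N n) := by linarith
    have hk1 : (1 : ℝ) ≤ k := hl1.trans k1
    have hk0 : (0 : ℝ) < k := by linarith
    have hN2 := Pool.Agent.Run7.h582.FM.le_two_pow (N n) k hl1 k3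
    refine ⟨⟨?_, hn2⟩, fun q hq h hh1 hh2 l m hm1 hm2 r u v hu hv => ?_⟩
    · have : (L n : ℝ) ≤ ((k ^ T : ℕ) : ℝ) := by
        push_cast
        exact hn1.trans (pow_le_pow_left₀ hl0.le k1 T)
      exact_mod_cast this
    · have h1 := hq h hh1 (by
        have : (h : ℝ) ≤ ((k ^ J : ℕ) : ℝ) := by
          push_cast
          exact hh2.trans (pow_le_pow_left₀ hl0.le k1 J)
        exact_mod_cast this) l
      have hBN : (B : ℤ) * N n ≤ B * ((2 ^ k : ℕ) : ℤ) := by
        apply mul_le_mul_of_nonneg_left _ (Nat.cast_nonneg _)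
        exact_mod_cast hN2
      have h3 := h1 0 univ ⟨0, mem_univ _⟩ m hm1 (by
        have : (m : ℝ) ≤ ((k ^ T : ℕ) : ℝ) := by
          push_cast
          exact hm2.trans (pow_le_pow_left₀ hl0.le k1 T)
        exact_mod_cast this) r u v fun i _ => ⟨hu.trans hBN, hv.trans hBN⟩
      refine le_trans (le_of_eq ?_) (h3.trans ?_)
      · congr 2
        unfold Pool.Agent.R501.CP.lamSum
        apply sum_congr rfl
        intro t _
        change liouville _ = liouville _
        rw [Fin.prod_univ_one]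
        simp only [Polynomial.eval_add, Polynomial.eval_mul, Polynomial.eval_C, Polynomial.eval_X]
      · push_cast
        exact Pool.Agent.Run7.h582.FM.size_conv U (N n) k hk0 hl0 k1 k4
  simp only [← ae_all_iff] at key
  filter_upwards [key] with x hx J W U
  exact hx J W U

end Pool.Agent.Results.MP_d639b3_nt.FourierDecayConstants
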