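import Pool.Agent.Run7.h710.TR.Cnt
import Pool.Agent.N625.PT.P

/-!
# Chowla's conjecture in progressions for arbitrary polynomials times a linear factor whose constant term is any multiple of
any integer near an integer written by a transducer

The integers `v < a ^ k` are arbitrary, up to few exceptions; the transducer `T` reads the digits of `v` in base `a` and
writes the digits of `T(v)` in base `b` (definitions in `Pool.Agent.Run7.h710.TR.Defs`).

Method: if two words of `L` digits lead from the same state to the same state and different words are written, then the two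
parts of the exponential sum over the integers `T(v)` which belong to these words cancel in part at the places where the
frequency has a digit which is not extremal. The passage from such exponential sums to correlations is from
the starting files (`Pool.Agent.N625.PT.t_poly`).

Examples: the bitwise conjunction or disjunction of `v` and `m v` (the carries are the states); the integer whose digit `i`
is `f(x_i, x_{i+1}, …, x_{i+r})`, where `x_i` are the digits of `v` and `f` is not constant (one-sided cellular automata).
-/

set_option autoImplicit false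

namespace Pool.Agent.Results.MP_d639b3_nt.TransducerConstants

open Finset Pool.Agent.Run7.h710.TR

/-- The Liouville function on the integers, `λ(-m) = λ(m)` and `λ(0) = 0`. -/
def lam (m : ℤ) : ℤ := if m = 0 then 0 else (-1) ^ ArithmeticFunction.cardFactors m.natAbs

/-- For all `l`, all residue classes `r` modulo `q ≤ k ^ T` and all integers `u`, `v` with `α l |u| ≤ B N` and
`α l |v| ≤ B N`: the sum of `λ(f l (n) (α l n + h))` over the integers `n` with `u ≤ n ≤ v` and `n ≡ r mod q` is at most
`N / k ^ U` in absolute value. -/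
def Small (B T U N k : ℕ) {M : ℕ} (f : Fin M → Polynomial ℤ) (α : Fin M → ℕ) (h : ℤ) : Prop :=
  ∀ l, ∀ q : ℕ, 1 ≤ q → q ≤ k ^ T → ∀ r u v : ℤ, (α l : ℤ) * |u| ≤ B * N → (α l : ℤ) * |v| ≤ B * N →
    |((∑ n ∈ (Icc u v).filter (fun n => n ≡ r [ZMOD q]), lam ((f l).eval n * (α l * n + h)) : ℤ) : ℝ)| ≤ N / (k : ℝ) ^ U

lemma small_of (B T U N k : ℕ) {M : ℕ} (f : Fin M → Polynomial ℤ) (α : Fin M → ℕ) (h : ℤ)
    (h1 : ∀ l, Pool.Agent.R501.CP.One B T U N k (f l) (α l) h) : Small B T U N k f α h := by
  intro l q hq1 hq2 r u w hu hw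
  have h3 := h1 l 0 univ ⟨0, mem_univ _⟩ q hq1 hq2 r u w fun i _ => ⟨hu, hw⟩
  refine le_trans (le_of_eq ?_) h3
  congr 2
  unfold Pool.Agent.R501.CP.lamSum
  apply sum_congr rfl
  intro n _
  change lam _ = lam _
  rw [Fin.prod_univ_one]
  simp only [Polynomial.eval_add, Polynomial.eval_mul, Polynomial.eval_C, Polynomial.eval_X]

open Classical in
/-- Let `a`, `b ≥ 2`, `L ≥ 1`, `κ ≠ 0`, `B`, `B'`, `T`, `J`, `W` and `U` be fixed and let `k` be large. Let an arbitrary transducer be given which reads digits `< a` and writes digits `< b` (with finitely or infinitely many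
states) such that from every state two words of `L` digits lead to the same state, while different words are written; let it
begin in an arbitrary state `s` and read from the left or from the right,
and let `c` be any integer with `|c| ≤ B b ^ k` (`k` must be large in terms of the fixed numbers only). Let at most `k ^ T`
pairs of a polynomial `f l` with integer coefficients (of any degree) and of an integer `α l ≥ 1` be given. Then all the
`v < a ^ k`, with at most `a ^ k / k ^ U` exceptions, have the following property, where `v'` is the integer which is written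
when `v` is read: for ALL the integers `q` at a distance of at most `k ^ W` from `c + κ v'`, ALL the factors
`1 ≤ h ≤ k ^ J` and all `l`, `|∑ λ(f l (n) (α l n + h q))| ≤ b ^ k / k ^ U`, where the sum is over the `n ≡ r mod m` in an
arbitrary interval `[u, w]` of integers with `α l |u|, α l |w| ≤ B' b ^ k`, for all residue classes `r` modulo all
`m ≤ k ^ T`. -/
theorem result (a b L : ℕ) (hb : 2 ≤ b) (hL : 1 ≤ L) (κ : ℤ) (hκ : κ ≠ 0) (B B' T J W U : ℕ) :
    ∃ k₀ : ℕ, ∀ k : ℕ, k₀ ≤ k → ∀ (S : Type) (δ : S → ℕ → S) (o : S → ℕ → ℕ), Transducer a b L δ o →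
      ∀ (left : Bool) (s : S) (c : ℤ), |c| ≤ B * (b : ℤ) ^ k →
      ∀ M : ℕ, M ≤ k ^ T → ∀ (f : Fin M → Polynomial ℤ) (α : Fin M → ℕ), (∀ l, 1 ≤ α l) →
        (((range (a ^ k)).filter fun v => ¬ ∀ q : ℤ, |q - (c + κ * (image a b δ o left k s v : ℕ))| ≤ (k : ℤ) ^ W →
          ∀ h : ℕ, 1 ≤ h → h ≤ k ^ J → Small B' T U (b ^ k) k f α (h * q)).card : ℝ) ≤ (a : ℝ) ^ k / (k : ℝ) ^ U := by
  obtain ⟨k₀, hmain⟩ := Pool.Agent.N625.PT.t_poly (tr_tcls a b L hb hL κ hκ) B B' T J W U
  refine ⟨k₀, fun k hk S δ o hT left s c hc M hM f α hα => ?_⟩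
  refine exceptions hb hT left k s (fun v => ∀ q : ℤ, |q - (c + κ * (v : ℕ))| ≤ (k : ℤ) ^ W → ∀ h : ℕ, 1 ≤ h → h ≤ k ^ J →
    Small B' T U (b ^ k) k f α (h * q)) U ?_
  refine le_trans (sum_le_sum ?_) (hmain k hk _ ⟨S, δ, o, left, s, hT, rfl⟩ c hc M hM f α hα)
  intro v _
  exact Pool.Agent.N625.PT.ite_mono0 _ _ _ (law_nonneg left k s v)
    fun h2 q hq h hh1 hh2 => small_of B' T U (b ^ k) k f α (h * q) (h2 q hq h hh1 hh2)

end Pool.Agent.Results.MP_d639b3_nt.TransducerConstants
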