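import Pool.Agent.Run7.h844.RP.Poly

/-!
# Chowla's conjecture in progressions for arbitrary polynomials times a linear factor whose constant term is a multiple of an
integer near a value of a generalised polynomial at a prime

Nothing is used besides Mathlib in the statement.

Method: exponential sums over primes with the phase of a generalised polynomial: derivative bounds uniform in the
coefficients, van der Corput differencing of all orders, bilinear sums, Vaughan's identity (after `Pool.Agent.H895R3.NK`,
`Pool.Agent.H373R2.T7`); a discrete Fejér kernel for the passage from real numbers to their integer parts, and a kernel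
estimate for the concentration on short intervals which needs only the large frequencies (library
`Pool.Agent.Run7.h844.RP`, after `Pool.Agent.N384.MQ`, `Pool.Agent.N193.PS`). The large spectrum of all the
multiples is thin, and the passage from such exponential sums to values of the Liouville function for almost all constant
terms is from the starting files, in a generic form: `Pool.Agent.N625.PT` (`t_poly`).
-/

set_option autoImplicit false

namespace Pool.Agent.Results.MP_d639b3_nt.ValuesAtPrimes

open Finset

/-- The generalised polynomial `∑ a x * t ^ x`, `x ∈ F`, with real exponents and coefficients. -/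
noncomputable def genPoly (F : Finset ℝ) (a : ℝ → ℝ) (t : ℝ) : ℝ := ∑ x ∈ F, a x * t ^ x

/-- `c` is the largest exponent; it is positive and not an integer, and its coefficient is not zero. -/
def Leading (F : Finset ℝ) (a : ℝ → ℝ) (c : ℝ) : Prop :=
  c ∈ F ∧ (∀ x ∈ F, x ≤ c) ∧ 0 < c ∧ (∀ m : ℕ, c ≠ m) ∧ a c ≠ 0

/-- The Liouville function on the integers, `λ(-m) = λ(m)` and `λ(0) = 0`. -/
def lam (m : ℤ) : ℤ := if m = 0 then 0 else (-1) ^ ArithmeticFunction.cardFactors m.natAbs

/-- For all `l`, all residue classes `r` modulo `q ≤ L` and all integers `u`, `v` with `α l |u| ≤ S` and `α l |v| ≤ S`: the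
sum of `λ(f l (n) (α l n + h))` over the integers `n` with `u ≤ n ≤ v` and `n ≡ r mod q` is at most `E` in absolute value. -/
def Small (L S E : ℝ) {M : ℕ} (f : Fin M → Polynomial ℤ) (α : Fin M → ℕ) (h : ℤ) : Prop :=
  ∀ l, ∀ q : ℕ, 1 ≤ q → (q : ℝ) ≤ L → ∀ r u v : ℤ, (α l : ℝ) * |(u : ℝ)| ≤ S → (α l : ℝ) * |(v : ℝ)| ≤ S →
    |((∑ n ∈ (Icc u v).filter (fun n => n ≡ r [ZMOD q]), lam ((f l).eval n * (α l * n + h)) : ℤ) : ℝ)| ≤ E

/-- `Small` for all the multiples `h q`, `1 ≤ h ≤ H`, of all the integers `q` at a distance of at most `R` from `y`. -/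
def Near (L S E : ℝ) {M : ℕ} (f : Fin M → Polynomial ℤ) (α : Fin M → ℕ) (H R y : ℝ) : Prop :=
  ∀ q : ℤ, |(q : ℝ) - y| ≤ R → ∀ h : ℕ, 1 ≤ h → (h : ℝ) ≤ H → Small L S E f α (h * q)

open Classical in
/-- Let `g(t) = ∑ a x t ^ x` be a generalised polynomial whose largest exponent `c` is positive and not an integer, and let
`B`, `T`, `J`, `W` and `U` be fixed. Let `X` be large, and let at most `log ^ T X` pairs of a polynomial `f l` with integer
coefficients (of any degree) and of an integer `α l ≥ 1` be given, and any real number `z` with `|z| ≤ X ^ c`. Then all the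
primes `X < p ≤ 2 X`, with at most `X / log ^ U X` exceptions, have the following property: for ALL the integers `q` at a
distance of at most `log ^ W X` from `g(p) + z`, ALL the factors `1 ≤ h ≤ log ^ J X` and all `l`,
`|∑ λ(f l (n) (α l n + h q))| ≤ X ^ c / log ^ U X`, where the sum is over the `n ≡ r mod m` in an arbitrary interval `[u, v]`
of integers with `α l |u|, α l |v| ≤ B X ^ c`, for all residue classes `r` modulo all `m ≤ log ^ T X`. -/
theorem result (F : Finset ℝ) (a : ℝ → ℝ) (c : ℝ) (hF : Leading F a c) (B T J W U : ℕ) :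
    ∃ X₀ : ℕ, ∀ X : ℕ, X₀ ≤ X → ∀ M : ℕ, (M : ℝ) ≤ Real.log X ^ T → ∀ (f : Fin M → Polynomial ℤ) (α : Fin M → ℕ),
      (∀ l, 1 ≤ α l) → ∀ z : ℝ, |z| ≤ (X : ℝ) ^ c →
      (((Ioc X (2 * X)).filter fun p : ℕ =>
        p.Prime ∧ ¬ Near (Real.log X ^ T) (B * (X : ℝ) ^ c) ((X : ℝ) ^ c / Real.log X ^ U) f α (Real.log X ^ J)
          (Real.log X ^ W) (genPoly F a p + z)).card : ℝ) ≤ X / Real.log X ^ U := by
  obtain ⟨X₀, h0⟩ := Pool.Agent.Run7.h844.RP.poly_primes F c hF.1 hF.2.2.2.1 hF.2.2.1 hF.2.1 a hF.2.2.2.2 B T J W U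
  exact ⟨X₀, h0⟩

end Pool.Agent.Results.MP_d639b3_nt.ValuesAtPrimes
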